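import Pool.Agent.Lib.MP_07564b_ag.Non

set_option autoImplicit false

namespace Pool.Agent.Results.MP_07564b_ag.Counterexample

open Pool.Agent.Lib.MP_07564b_ag

/-- On `ℙ^5` there is a uniform vector bundle of rank `9 < 2 * 5` which is not a direct sum of
bundles `O(e)`, `T(c)`, `Ω(d)` and is not homogeneous. -/
theorem result : ∃ E : VB 5 (Fin 9), Uniform E ∧ ¬ SumOTOm E ∧ ¬ Homogeneous E :=
  ⟨EE, uniform_EE, not_sum, not_hom⟩

end Pool.Agent.Results.MP_07564b_ag.Counterexample
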